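import Mathlib

set_option autoImplicit false

namespace Pool.Agent.Results.MP_28c1b3_co.Disproof

open Finset

/-- `F` is `t`-avoiding: no two distinct members meet in exactly `t` elements. -/
def Avoiding (t : ℕ) (F : Finset (Finset ℕ)) : Prop :=
  ∀ A ∈ F, ∀ B ∈ F, A ≠ B → (A ∩ B).card ≠ t

/-- Number of unordered pairs of distinct disjoint members (half the number of ordered ones). -/
def disjPairs (F : Finset (Finset ℕ)) : ℕ :=
  (F.offDiag.filter (fun p => p.1 ∩ p.2 = ∅)).card / 2

/-- The family `F*(n,t)` of subsets of `[n] = {1,…,n}`. -/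
def Fstar (n t : ℕ) : Finset (Finset ℕ) :=
  (Icc 1 n).powerset.filter (fun A =>
    (if (n + t) % 2 = 1 then n + t + 1 ≤ 2 * A.card else n + t ≤ 2 * (A.erase 1).card) ∨
      A.card + 1 ≤ t)

def big (n : ℕ) : Finset (Finset ℕ) :=
  (Icc 2 n).powerset.filter (fun B => n + 1 ≤ 2 * B.card)

lemma mem_big {n : ℕ} {B : Finset ℕ} : B ∈ big n ↔ B ⊆ Icc 2 n ∧ n + 1 ≤ 2 * B.card := by
  simp [big]

lemma big_inter {n : ℕ} {A B : Finset ℕ} (hA : A ∈ big n) (hB : B ∈ big n) (hn : 1 ≤ n) :
    2 ≤ (A ∩ B).card := by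
  rw [mem_big] at hA hB
  have h1 := card_union_add_card_inter A B
  have h2 : (A ∪ B).card ≤ n - 1 := by
    have := card_le_card (union_subset hA.1 hB.1)
    simpa using this
  omega

lemma one_not_mem {n : ℕ} {A : Finset ℕ} (hA : A ∈ big n) : 1 ∉ A := by
  rw [mem_big] at hA
  intro h
  have := hA.1 h
  simp at this

lemma big_ne_empty {n : ℕ} {A : Finset ℕ} (hA : A ∈ big n) : A ≠ ∅ := by
  rw [mem_big] at hA
  rintro rfl
  simp at hA

lemma star_le (n : ℕ) (hn : n % 2 = 1) :
    ((Fstar n 1).offDiag.filter (fun p => p.1 ∩ p.2 = ∅)).card ≤ 4 * (big n).card := by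
  set G := big n ∪ (big n).image (insert 1) with hG
  have hGc : G.card ≤ 2 * (big n).card := by
    have h1 := card_union_le (big n) ((big n).image (insert 1))
    have h2 := card_image_le (s := big n) (f := insert 1)
    rw [← hG] at h1
    omega
  have hmem : ∀ A ∈ Fstar n 1, A = ∅ ∨ (A.erase 1 ∈ big n ∧ A ∈ G) := by
    intro A hA
    simp only [Fstar, mem_filter, mem_powerset] at hA
    obtain ⟨h1, h2⟩ := hA
    rcases h2 with h2 | h2
    · right
      rw [if_neg (by omega)] at h2
      have hb : A.erase 1 ∈ big n := by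
        rw [mem_big]
        refine ⟨?_, h2⟩
        intro x hx
        rw [mem_erase] at hx
        have := h1 hx.2
        simp only [mem_Icc] at this ⊢
        omega
      refine ⟨hb, ?_⟩
      rw [hG, mem_union]
      by_cases h : 1 ∈ A
      · right
        rw [mem_image]
        exact ⟨_, hb, insert_erase h⟩
      · left
        rwa [erase_eq_of_notMem h] at hb
    · left
      exact card_eq_zero.mp (by omega)
  have hsub : (Fstar n 1).offDiag.filter (fun p => p.1 ∩ p.2 = ∅) ⊆
      (({∅} : Finset (Finset ℕ)) ×ˢ G) ∪ (G ×ˢ ({∅} : Finset (Finset ℕ))) := by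
    rintro ⟨A, B⟩ hp
    simp only [mem_filter, mem_offDiag] at hp
    obtain ⟨⟨hA, hB, hAB⟩, hI⟩ := hp
    simp only [mem_union, mem_product, mem_singleton]
    rcases hmem A hA with h | h <;> rcases hmem B hB with h' | h'
    · exact absurd (h.trans h'.symm) hAB
    · exact Or.inl ⟨h, h'.2⟩
    · exact Or.inr ⟨h.2, h'⟩
    · exfalso
      have h2 := big_inter h.1 h'.1 (by omega)
      have h3 : (A.erase 1 ∩ B.erase 1) ⊆ A ∩ B :=
        inter_subset_inter (erase_subset _ _) (erase_subset _ _)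
      have h4 := card_le_card h3
      rw [hI] at h4
      simp only [card_empty] at h4
      omega
  have h1 := card_le_card hsub
  have h2 := card_union_le (({∅} : Finset (Finset ℕ)) ×ˢ G) (G ×ˢ ({∅} : Finset (Finset ℕ)))
  simp only [card_product, card_singleton] at h2
  omega

def Fnew (n : ℕ) : Finset (Finset ℕ) := big n ∪ {∅, {1}}

lemma new_ge (n : ℕ) :
    4 * (big n).card + 2 ≤ ((Fnew n).offDiag.filter (fun p => p.1 ∩ p.2 = ∅)).card := by
  set S : Finset (Finset ℕ) := {∅, {1}} with hS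
  have hSc : S.card = 2 := by rw [hS]; decide
  have hSb : ∀ A ∈ S, A ∉ big n := by
    intro A hA hb
    simp only [hS, mem_insert, mem_singleton] at hA
    rcases hA with rfl | rfl
    · exact big_ne_empty hb rfl
    · exact one_not_mem hb (by simp)
  have hSd : ∀ A ∈ S, ∀ B ∈ big n, A ∩ B = ∅ := by
    intro A hA B hb
    simp only [hS, mem_insert, mem_singleton] at hA
    rcases hA with rfl | rfl
    · simp
    · simp [one_not_mem hb]
  have hsub : (S ×ˢ big n) ∪ (big n ×ˢ S) ∪ S.offDiag ⊆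
      (Fnew n).offDiag.filter (fun p => p.1 ∩ p.2 = ∅) := by
    rintro ⟨A, B⟩ hp
    simp only [mem_union, mem_product, mem_offDiag] at hp
    simp only [mem_filter, mem_offDiag, Fnew, mem_union, ← hS]
    rcases hp with (⟨h1, h2⟩ | ⟨h1, h2⟩) | ⟨h1, h2, h3⟩
    · refine ⟨⟨Or.inr h1, Or.inl h2, ?_⟩, hSd _ h1 _ h2⟩
      rintro rfl
      exact hSb _ h1 h2
    · refine ⟨⟨Or.inl h1, Or.inr h2, ?_⟩, by rw [inter_comm]; exact hSd _ h2 _ h1⟩
      rintro rfl
      exact hSb _ h2 h1
    · refine ⟨⟨Or.inr h1, Or.inr h2, h3⟩, ?_⟩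
      simp only [hS, mem_insert, mem_singleton] at h1 h2
      rcases h1 with rfl | rfl <;> rcases h2 with rfl | rfl <;> simp_all
  have h1 := card_le_card hsub
  rw [card_union_of_disjoint, card_union_of_disjoint] at h1
  · simp only [card_product, offDiag_card, hSc] at h1
    omega
  · rw [disjoint_left]
    rintro ⟨A, B⟩ h2 h3
    simp only [mem_product] at h2 h3
    exact hSb _ h2.1 h3.1
  · rw [disjoint_left]
    rintro ⟨A, B⟩ h2 h3
    simp only [mem_product, mem_union, mem_offDiag] at h2 h3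
    rcases h2 with h2 | h2
    · exact hSb _ h3.2.1 h2.2
    · exact hSb _ h3.1 h2.1

lemma new_avoid (n : ℕ) (hn : 1 ≤ n) : Avoiding 1 (Fnew n) := by
  intro A hA B hB hAB
  simp only [Fnew, mem_union, mem_insert, mem_singleton] at hA hB
  rcases hA with hA | rfl | rfl <;> rcases hB with hB | rfl | rfl
  · have := big_inter hA hB hn
    omega
  · simp
  · simp [one_not_mem hA]
  · simp
  · simp
  · simp
  · simp [one_not_mem hB]
  · simp
  · exact absurd rfl hAB

lemma new_sub (n : ℕ) (hn : 1 ≤ n) : Fnew n ⊆ (Icc 1 n).powerset := by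
  intro A hA
  simp only [Fnew, mem_union, mem_insert, mem_singleton] at hA
  rw [mem_powerset]
  rcases hA with hA | rfl | rfl
  · rw [mem_big] at hA
    exact hA.1.trans (Icc_subset_Icc_left (by omega))
  · simp
  · simp [hn]

theorem result :
    ∃ t : ℕ, 1 ≤ t ∧ ∀ N : ℕ, ∃ n : ℕ, N ≤ n ∧ ∃ F : Finset (Finset ℕ),
      F ⊆ (Icc 1 n).powerset ∧ Avoiding t F ∧ disjPairs (Fstar n t) < disjPairs F := by
  refine ⟨1, le_rfl, fun N => ⟨2 * N + 1, by omega, Fnew (2 * N + 1), new_sub _ (by omega),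
    new_avoid _ (by omega), ?_⟩⟩
  have h1 := star_le (2 * N + 1) (by omega)
  have h2 := new_ge (2 * N + 1)
  unfold disjPairs
  omega

end Pool.Agent.Results.MP_28c1b3_co.Disproof
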